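import Pool.Agent.Helper97.FR.Tutte
import Pool.Agent.Helper93.F5.Basic

/-!
# The perfect matching polytope: definitions and basic lemmas
-/

set_option autoImplicit false
open Finset

namespace Pool.Agent.Helper97.FR

open Pool.Agent.Helper93.F5

variable {V E : Type} [DecidableEq V] [DecidableEq E]

/-- The edges have two ends. -/
structure Base (G : Gr V E) : Prop where
  two : ∀ e ∈ G.D, (G.inc e).card = 2
  sub : ∀ e ∈ G.D, G.inc e ⊆ G.A

/-- A point of the perfect matching polytope with all edges in the support. -/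
structure Frac (G : Gr V E) (x : E → ℝ) : Prop extends Base G where
  pos : ∀ e ∈ G.D, 0 < x e
  deg : ∀ v ∈ G.A, ∑ e ∈ G.D.filter (fun e => v ∈ G.inc e), x e = 1
  odd : ∀ X ⊆ G.A, Odd X.card → 1 ≤ ∑ e ∈ G.cut X, x e

theorem Base.ends {G : Gr V E} (hG : Base G) {e : E} (he : e ∈ G.D) :
    ∃ x y, x ≠ y ∧ G.inc e = {x, y} ∧ x ∈ G.A ∧ y ∈ G.A := by
  obtain ⟨x, y, hxy, h⟩ := Finset.card_eq_two.mp (hG.two e he)
  have hs := hG.sub e he
  rw [h] at hs
  exact ⟨x, y, hxy, h, hs (by simp), hs (by simp)⟩

theorem Base.cut_compl {G : Gr V E} (hG : Base G) (X : Finset V) :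
    G.cut (G.A \ X) = G.cut X := by
  ext e
  by_cases he : e ∈ G.D
  · obtain ⟨x, y, hxy, h, hx, hy⟩ := hG.ends he
    rw [mem_cut hxy h, mem_cut hxy h]
    simp only [Finset.mem_sdiff, hx, hy, true_and]
    tauto
  · constructor
    · intro h; exact absurd (cut_sub _ _ h) he
    · intro h; exact absurd (cut_sub _ _ h) he

theorem Base.cut_singleton {G : Gr V E} (hG : Base G) {v : V} :
    G.cut {v} = G.D.filter (fun e => v ∈ G.inc e) := by
  ext e
  by_cases he : e ∈ G.D
  · obtain ⟨x, y, hxy, h, hx, hy⟩ := hG.ends he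
    rw [mem_cut hxy h]
    simp only [Finset.mem_filter, he, h, true_and, Finset.mem_insert, Finset.mem_singleton]
    constructor
    · intro h1
      by_contra h2
      push Not at h2
      exact h1 (iff_of_false (Ne.symm h2.1) (Ne.symm h2.2))
    · rintro (rfl | rfl)
      · intro h1; exact hxy (h1.mp rfl).symm
      · intro h1; exact hxy (h1.mpr rfl)
  · constructor
    · intro h; exact absurd (cut_sub _ _ h) he
    · intro h; exact absurd (Finset.mem_filter.mp h).1 he

/-- Contraction of `G.A \ S` to the vertex `w`. -/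
def con (G : Gr V E) (S : Finset V) (w : V) : Gr V E where
  A := insert w S
  D := G.D.filter (fun e => (G.inc e ∩ S).Nonempty)
  inc := fun e => if G.inc e ⊆ S then G.inc e else insert w (G.inc e ∩ S)

section Con

variable {G : Gr V E} {S : Finset V} {w : V}

theorem con_inc_inter (hw : w ∉ S) {e : E} {Z : Finset V} (hZ : Z ⊆ S) :
    (con G S w).inc e ∩ Z = G.inc e ∩ Z := by
  have hwZ : w ∉ Z := fun h => hw (hZ h)
  unfold con
  dsimp only
  split_ifs with h
  · rfl
  · ext v
    simp only [Finset.mem_inter, Finset.mem_insert]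
    constructor
    · rintro ⟨rfl | h1, h2⟩
      · exact absurd h2 hwZ
      · exact ⟨h1.1, h2⟩
    · rintro ⟨h1, h2⟩
      exact ⟨Or.inr ⟨h1, hZ h2⟩, h2⟩

theorem mem_con_inc (hw : w ∉ S) {e : E} {v : V} (hv : v ∈ S) :
    v ∈ (con G S w).inc e ↔ v ∈ G.inc e := by
  have h := con_inc_inter (G := G) (e := e) hw (Finset.singleton_subset_iff.2 hv)
  constructor
  · intro h1
    have h2 : v ∈ (con G S w).inc e ∩ {v} := Finset.mem_inter.2 ⟨h1, Finset.mem_singleton_self v⟩
    rw [h] at h2
    exact (Finset.mem_inter.1 h2).1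
  · intro h1
    have h2 : v ∈ G.inc e ∩ {v} := Finset.mem_inter.2 ⟨h1, Finset.mem_singleton_self v⟩
    rw [← h] at h2
    exact (Finset.mem_inter.1 h2).1

theorem con_cut (hw : w ∉ S) {Z : Finset V} (hZ : Z ⊆ S) : (con G S w).cut Z = G.cut Z := by
  ext e
  unfold Gr.cut
  rw [Finset.mem_filter, Finset.mem_filter, con_inc_inter hw hZ]
  constructor
  · rintro ⟨h1, h2⟩
    exact ⟨(Finset.mem_filter.1 h1).1, h2⟩
  · rintro ⟨h1, h2⟩
    refine ⟨Finset.mem_filter.2 ⟨h1, ?_⟩, h2⟩
    have h3 : (G.inc e ∩ Z).Nonempty := Finset.card_pos.1 (by omega)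
    exact h3.mono (Finset.inter_subset_inter_left hZ)

theorem con_deg (hw : w ∉ S) {v : V} (hv : v ∈ S) :
    (con G S w).D.filter (fun e => v ∈ (con G S w).inc e) = G.D.filter (fun e => v ∈ G.inc e) := by
  ext e
  rw [Finset.mem_filter, Finset.mem_filter, mem_con_inc hw hv]
  constructor
  · rintro ⟨h1, h2⟩
    exact ⟨(Finset.mem_filter.1 h1).1, h2⟩
  · rintro ⟨h1, h2⟩
    exact ⟨Finset.mem_filter.2 ⟨h1, ⟨v, Finset.mem_inter.2 ⟨h2, hv⟩⟩⟩, h2⟩

theorem mem_con_w (hG : Base G) (hw : w ∉ S) {e : E} (he : e ∈ (con G S w).D) :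
    w ∈ (con G S w).inc e ↔ e ∈ G.cut S := by
  have he' := Finset.mem_filter.1 he
  unfold Gr.cut
  rw [Finset.mem_filter]
  have h2 := hG.two e he'.1
  have hpos : 0 < (G.inc e ∩ S).card := Finset.card_pos.2 he'.2
  unfold con
  dsimp only
  split_ifs with h
  · constructor
    · intro h1
      exact absurd (h h1) hw
    · rintro ⟨_, h1⟩
      rw [Finset.inter_eq_left.2 h, h2] at h1
      omega
  · constructor
    · intro _
      refine ⟨he'.1, ?_⟩
      have h3 : (G.inc e ∩ S).card < (G.inc e).card := by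
        apply Finset.card_lt_card
        refine ⟨Finset.inter_subset_left, ?_⟩
        intro hc
        exact h (fun v hv => (Finset.mem_inter.1 (hc hv)).2)
      omega
    · intro _
      exact Finset.mem_insert_self _ _

theorem cut_sub_con : G.cut S ⊆ (con G S w).D := by
  intro e he
  have h := Finset.mem_filter.1 he
  exact Finset.mem_filter.2 ⟨h.1, Finset.card_pos.1 (by omega)⟩

theorem con_deg_w (hG : Base G) (hw : w ∉ S) :
    (con G S w).D.filter (fun e => w ∈ (con G S w).inc e) = G.cut S := by
  ext e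
  rw [Finset.mem_filter]
  constructor
  · rintro ⟨h1, h2⟩
    exact (mem_con_w hG hw h1).1 h2
  · intro h
    have h1 : e ∈ (con G S w).D := cut_sub_con h
    exact ⟨h1, (mem_con_w hG hw h1).2 h⟩

theorem con_base (hG : Base G) (hw : w ∉ S) : Base (con G S w) := by
  constructor
  · intro e he
    have he' := Finset.mem_filter.1 he
    by_cases hc : e ∈ G.cut S
    · have h1 := (Finset.mem_filter.1 hc).2
      have h2 : ¬ G.inc e ⊆ S := by
        intro h
        rw [Finset.inter_eq_left.2 h, hG.two e he'.1] at h1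
        omega
      unfold con
      dsimp only
      rw [if_neg h2, Finset.card_insert_of_notMem, h1]
      intro h
      exact hw (Finset.mem_inter.1 h).2
    · have h2 : G.inc e ⊆ S := by
        by_contra h
        apply hc
        rw [← mem_con_w hG hw he]
        unfold con
        dsimp only
        rw [if_neg h]
        exact Finset.mem_insert_self _ _
      unfold con
      dsimp only
      rw [if_pos h2]
      exact hG.two e he'.1
  · intro e _
    unfold con
    dsimp only
    split_ifs with h
    · exact h.trans (Finset.subset_insert _ _)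
    · exact Finset.insert_subset_insert _ Finset.inter_subset_right

theorem con_frac {x : E → ℝ} (hG : Frac G x) (hS : S ⊆ G.A) (hodd : Odd S.card) (hw : w ∉ S)
    (htight : ∑ e ∈ G.cut S, x e = 1) : Frac (con G S w) x := by
  have hb := con_base hG.toBase hw
  refine ⟨hb, ?_, ?_, ?_⟩
  · intro e he
    exact hG.pos e (Finset.mem_filter.1 he).1
  · intro v hv
    rcases Finset.mem_insert.1 hv with rfl | hv
    · rw [con_deg_w hG.toBase hw, htight]
    · rw [con_deg hw hv, hG.deg v (hS hv)]
  · intro Z hZ hZo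
    by_cases hwZ : w ∈ Z
    · rw [← hb.cut_compl Z]
      have h1 : (con G S w).A \ Z ⊆ S := by
        intro v hv
        rw [Finset.mem_sdiff] at hv
        rcases Finset.mem_insert.1 hv.1 with rfl | h
        · exact absurd hwZ hv.2
        · exact h
      rw [con_cut hw h1]
      refine hG.odd _ (h1.trans hS) ?_
      rw [Finset.card_sdiff_of_subset hZ]
      have h2 : (con G S w).A.card = S.card + 1 := Finset.card_insert_of_notMem hw
      have h3 := Finset.card_le_card hZ
      rw [h2] at h3 ⊢
      rw [Nat.odd_iff] at *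
      omega
    · have h1 : Z ⊆ S := by
        intro v hv
        rcases Finset.mem_insert.1 (hZ hv) with rfl | h
        · exact absurd hv hwZ
        · exact h
      rw [con_cut hw h1]
      exact hG.odd Z (h1.trans hS) hZo

end Con

end Pool.Agent.Helper97.FR
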