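import Pool.Agent.Helper97.FR.Tight

/-!
# Edmonds' perfect matching polytope theorem: the induction
-/

set_option autoImplicit false
set_option linter.unusedSectionVars false
open Finset

namespace Pool.Agent.Helper97.FR

open Pool.Agent.Helper93.F5

variable {V E : Type} [DecidableEq V] [DecidableEq E]

/-- The same graph with fewer edges. -/
def res (G : Gr V E) (D' : Finset E) : Gr V E := ⟨G.A, D', G.inc⟩

theorem res_pm {G : Gr V E} {D' : Finset E} (h : D' ⊆ G.D) {M : Finset E} (hM : (res G D').PM M) :
    G.PM M := ⟨hM.1.trans h, hM.2⟩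

theorem edmonds_aux (n : ℕ) : ∀ m : ℕ, ∀ (G : Gr V E) (x : E → ℝ), Frac G x → G.A.card = n →
    G.D.card = m → Concl G x := by
  induction n using Nat.strong_induction_on with
  | _ n ihn =>
  intro m
  induction m using Nat.strong_induction_on with
  | _ m ihm =>
  intro G x hG hn hm
  classical
  -- a graph with a tight cut
  have tight : ∀ (G' : Gr V E) (x' : E → ℝ), Frac G' x' → G'.A.card = n → ∀ S ⊆ G'.A, Odd S.card →
      1 < S.card → 1 < (G'.A \ S).card → ∑ e ∈ G'.cut S, x' e = 1 → Concl G' x' := by
    intro G' x' hG' hn' S hS hSo hS1 hS2 ht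
    have hcS := Finset.card_sdiff_of_subset hS
    have hle := Finset.card_le_card hS
    have hev := hG'.even
    obtain ⟨w, hw⟩ : (G'.A \ S).Nonempty := Finset.card_pos.1 (by omega)
    obtain ⟨w', hw'⟩ : S.Nonempty := Finset.card_pos.1 (by omega)
    have hwS : w ∉ S := (Finset.mem_sdiff.1 hw).2
    have hwS' : w' ∉ G'.A \ S := fun h => (Finset.mem_sdiff.1 h).2 hw'
    have hSo' : Odd (G'.A \ S).card := by
      rw [hcS]
      rw [Nat.odd_iff, Nat.even_iff] at *
      omega
    have f1 : Frac (con G' S w) x' := con_frac hG' hS hSo hwS ht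
    have f2 : Frac (con G' (G'.A \ S) w') x' :=
      con_frac hG' Finset.sdiff_subset hSo' hwS' (by rw [hG'.cut_compl]; exact ht)
    have c1 : (con G' S w).A.card = S.card + 1 := Finset.card_insert_of_notMem hwS
    have c2 : (con G' (G'.A \ S) w').A.card = (G'.A \ S).card + 1 :=
      Finset.card_insert_of_notMem hwS'
    exact concl_tight hG'.toBase hG'.pos hwS hw'
      (ihn _ (by rw [c1]; omega) _ _ _ f1 rfl rfl)
      (ihn _ (by rw [c2]; omega) _ _ _ f2 rfl rfl)
  by_cases htc : ∃ S ⊆ G.A, Odd S.card ∧ 1 < S.card ∧ 1 < (G.A \ S).card ∧ ∑ e ∈ G.cut S, x e = 1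
  · obtain ⟨S, h1, h2, h3, h4, h5⟩ := htc
    exact tight G x hG hn S h1 h2 h3 h4 h5
  · push Not at htc
    intro c
    obtain ⟨M, hM⟩ := exists_pm hG
    by_cases hcM : ∑ e ∈ M, c e ≤ ∑ e ∈ G.D, c e * x e
    · exact ⟨M, hM, hcM⟩
    push Not at hcM
    -- `x ≤ 1`
    have hx1 : ∀ e ∈ G.D, x e ≤ 1 := by
      intro e he
      obtain ⟨p, q, _, hinc, hp, _⟩ := hG.ends he
      rw [← hG.deg p hp]
      refine Finset.single_le_sum (f := x) (fun f hf => (hG.pos f (Finset.mem_filter.1 hf).1).le) ?_
      rw [Finset.mem_filter, hinc]
      exact ⟨he, Finset.mem_insert_self _ _⟩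
    set 𝒮 := G.A.powerset.filter (fun S => Odd S.card ∧ 1 < S.card ∧ 1 < (G.A \ S).card ∧
      1 < (M ∩ G.cut S).card) with h𝒮
    set b : Finset V → ℝ := fun S => (∑ e ∈ G.cut S, x e - 1) / ((M ∩ G.cut S).card - 1) with hb
    have hMne : M.Nonempty := by
      rw [Finset.nonempty_iff_ne_empty]
      rintro rfl
      have hA : G.A = ∅ := by
        by_contra hne
        obtain ⟨v, hv⟩ := Finset.nonempty_iff_ne_empty.2 hne
        have := hM.2 v hv
        simp at this
      have hD : G.D = ∅ := by
        by_contra hne
        obtain ⟨e, he⟩ := Finset.nonempty_iff_ne_empty.2 hne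
        obtain ⟨p, q, _, _, hp, _⟩ := hG.ends he
        rw [hA] at hp
        simp at hp
      rw [hD] at hcM
      simp at hcM
    have hRne : (M.image x ∪ 𝒮.image b).Nonempty := by
      obtain ⟨e, he⟩ := hMne
      exact ⟨x e, Finset.mem_union_left _ (Finset.mem_image_of_mem x he)⟩
    obtain ⟨t, htR, htmin⟩ := (M.image x ∪ 𝒮.image b).exists_min_image id hRne
    simp only [id] at htmin
    have htM : ∀ e ∈ M, t ≤ x e := fun e he =>
      htmin _ (Finset.mem_union_left _ (Finset.mem_image_of_mem x he))
    have htS : ∀ S ∈ 𝒮, t ≤ b S := fun S hS =>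
      htmin _ (Finset.mem_union_right _ (Finset.mem_image_of_mem b hS))
    -- the case `t < 1`
    have ht1 : t < 1 := by
      by_contra hge
      push Not at hge
      have hDM : G.D = M := by
        refine Finset.Subset.antisymm ?_ hM.1
        intro e he
        obtain ⟨p, q, _, hinc, hp, _⟩ := hG.ends he
        obtain ⟨f, hf⟩ := Finset.card_eq_one.1 (hM.2 p hp)
        have hfM : f ∈ M.filter (fun e => p ∈ G.inc e) := by rw [hf]; exact Finset.mem_singleton_self f
        rw [Finset.mem_filter] at hfM
        by_contra hne
        have hef : e ≠ f := by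
          rintro rfl
          exact hne hfM.1
        have h1 := hG.deg p hp
        have h2 : x e + x f ≤ ∑ g ∈ G.D.filter (fun g => p ∈ G.inc g), x g := by
          rw [← Finset.sum_pair hef]
          refine Finset.sum_le_sum_of_subset_of_nonneg ?_ (fun g hg _ =>
            (hG.pos g (Finset.mem_filter.1 hg).1).le)
          intro g hg
          rw [Finset.mem_insert, Finset.mem_singleton] at hg
          rcases hg with rfl | rfl
          · rw [Finset.mem_filter, hinc]
            exact ⟨he, Finset.mem_insert_self _ _⟩
          · exact Finset.mem_filter.2 ⟨hM.1 hfM.1, hfM.2⟩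
        have h3 := htM f hfM.1
        have h4 := hG.pos e he
        linarith
      have h5 : ∑ e ∈ M, c e = ∑ e ∈ G.D, c e * x e := by
        rw [hDM]
        refine Finset.sum_congr rfl fun e he => ?_
        have h6 := htM e he
        have h7 := hx1 e (hM.1 he)
        have : x e = 1 := by linarith
        rw [this, mul_one]
      linarith
    have h1t : 0 < 1 - t := by linarith
    set x' : E → ℝ := fun e => (x e - if e ∈ M then t else 0) / (1 - t) with hx'
    have hx'0 : ∀ e ∈ G.D, 0 ≤ x' e := by
      intro e he
      refine div_nonneg ?_ h1t.le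
      split_ifs with h
      · have := htM e h
        linarith
      · have := hG.pos e he
        linarith
    set G' := res G (G.D.filter (fun e => 0 < x' e)) with hG'
    have hsum : ∀ (K : Finset E), K ⊆ G.D → ∑ e ∈ K, x' e =
        (∑ e ∈ K, x e - t * (M ∩ K).card) / (1 - t) := by
      intro K _
      rw [hx']
      simp only
      rw [← Finset.sum_div, Finset.sum_sub_distrib]
      congr 2
      rw [← Finset.sum_filter, Finset.sum_const, nsmul_eq_mul, mul_comm]
      congr 3
      ext e
      rw [Finset.mem_filter, Finset.mem_inter, and_comm]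
    have hfil : ∀ (K : Finset E), K ⊆ G.D → ∑ e ∈ K.filter (fun e => 0 < x' e), x' e = ∑ e ∈ K, x' e := by
      intro K hK
      rw [Finset.sum_filter]
      refine Finset.sum_congr rfl fun e he => ?_
      split_ifs with h
      · rfl
      · exact le_antisymm (hx'0 e (hK he)) (not_lt.1 h)
    have hcutD : ∀ S, G.cut S ⊆ G.D := fun S => cut_sub G S
    have hcut' : ∀ S, G'.cut S = (G.cut S).filter (fun e => 0 < x' e) := by
      intro S
      unfold Gr.cut
      rw [Finset.filter_filter]
      change (G.D.filter (fun e => 0 < x' e)).filter (fun e => (G.inc e ∩ S).card = 1) = _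
      rw [Finset.filter_filter]
      refine Finset.filter_congr fun e _ => and_comm
    have hFrac : Frac G' x' := by
      refine ⟨⟨fun e he => hG.two e (Finset.mem_filter.1 he).1,
        fun e he => hG.sub e (Finset.mem_filter.1 he).1⟩, fun e he => (Finset.mem_filter.1 he).2, ?_, ?_⟩
      · intro v hv
        have e1 : G'.D.filter (fun e => v ∈ G'.inc e) =
            (G.D.filter (fun e => v ∈ G.inc e)).filter (fun e => 0 < x' e) := by
          change (G.D.filter (fun e => 0 < x' e)).filter (fun e => v ∈ G.inc e) = _
          rw [Finset.filter_filter, Finset.filter_filter]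
          refine Finset.filter_congr fun e _ => and_comm
        rw [e1, hfil _ (Finset.filter_subset _ _), hsum _ (Finset.filter_subset _ _)]
        have e2 : (M ∩ G.D.filter (fun e => v ∈ G.inc e)).card = 1 := by
          rw [← hM.2 v hv]
          congr 1
          ext e
          rw [Finset.mem_inter, Finset.mem_filter, Finset.mem_filter]
          constructor
          · rintro ⟨h1, _, h2⟩
            exact ⟨h1, h2⟩
          · rintro ⟨h1, h2⟩
            exact ⟨h1, hM.1 h1, h2⟩
        rw [e2, hG.deg v hv]
        push_cast
        rw [mul_one, div_self h1t.ne']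
      · intro S hS hSo
        replace hS : S ⊆ G.A := hS
        rw [hcut', hfil _ (hcutD S), hsum _ (hcutD S), le_div_iff₀ h1t, one_mul]
        have h1 := hG.odd S hS hSo
        by_cases hm1 : (M ∩ G.cut S).card ≤ 1
        · have h2 : ((M ∩ G.cut S).card : ℝ) ≤ 1 := by exact_mod_cast hm1
          have ht0 : 0 < t := by
            rcases Finset.mem_union.1 htR with h | h
            · obtain ⟨e, he, rfl⟩ := Finset.mem_image.1 h
              exact hG.pos e (hM.1 he)
            · obtain ⟨T, hT, rfl⟩ := Finset.mem_image.1 h
              rw [h𝒮, Finset.mem_filter, Finset.mem_powerset] at hT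
              have h3 := hG.odd T hT.1 hT.2.1
              have h4 := htc T hT.1 hT.2.1 hT.2.2.1 hT.2.2.2.1
              have h5 : (1 : ℝ) < (M ∩ G.cut T).card := by exact_mod_cast hT.2.2.2.2
              exact div_pos (by rcases lt_or_eq_of_le h3 with h | h
                                · linarith
                                · exact absurd h.symm h4) (by linarith)
          nlinarith
        · push Not at hm1
          have hsing : ∀ v ∈ G.A, (M ∩ G.cut {v}).card = 1 := by
            intro v hv
            rw [hG.cut_singleton, ← hM.2 v hv]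
            congr 1
            ext e
            rw [Finset.mem_inter, Finset.mem_filter, Finset.mem_filter]
            constructor
            · rintro ⟨h1, _, h2⟩
              exact ⟨h1, h2⟩
            · rintro ⟨h1, h2⟩
              exact ⟨h1, hM.1 h1, h2⟩
          have hS1 : 1 < S.card := by
            by_contra hle
            have : S.card = 1 := by
              rw [Nat.odd_iff] at hSo
              omega
            obtain ⟨v, rfl⟩ := Finset.card_eq_one.1 this
            have := hsing v (hS (Finset.mem_singleton_self v))
            omega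
          have hS2 : 1 < (G.A \ S).card := by
            by_contra hle
            have h3 := Finset.card_sdiff_of_subset hS
            have h4 := hG.even
            have h5 := Finset.card_le_card hS
            have : (G.A \ S).card = 1 := by
              rw [Nat.odd_iff] at hSo
              rw [Nat.even_iff] at h4
              omega
            obtain ⟨v, hv⟩ := Finset.card_eq_one.1 this
            have h6 : v ∈ G.A \ S := by rw [hv]; exact Finset.mem_singleton_self v
            have h7 := hsing v (Finset.mem_sdiff.1 h6).1
            rw [← hv, hG.cut_compl] at h7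
            omega
          have hSm : S ∈ 𝒮 := by
            rw [h𝒮, Finset.mem_filter, Finset.mem_powerset]
            exact ⟨hS, hSo, hS1, hS2, hm1⟩
          have h3 := htS S hSm
          have h5 : (1 : ℝ) < (M ∩ G.cut S).card := by exact_mod_cast hm1
          rw [hb] at h3
          simp only at h3
          rw [le_div_iff₀ (by linarith)] at h3
          linarith
    have hConcl : Concl G' x' := by
      rcases Finset.mem_union.1 htR with h | h
      · obtain ⟨e, he, hte⟩ := Finset.mem_image.1 h
        have hlt : G'.D.card < G.D.card := by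
          apply Finset.card_lt_card
          refine ⟨Finset.filter_subset _ _, ?_⟩
          intro hsub
          have h1 := (Finset.mem_filter.1 (hsub (hM.1 he))).2
          have h2 : x' e = 0 := by
            rw [hx']
            simp only [he, if_true]
            rw [hte, sub_self, zero_div]
          rw [h2] at h1
          exact lt_irrefl _ h1
        exact ihm G'.D.card (by rw [← hm]; exact hlt) G' x' hFrac hn rfl
      · obtain ⟨S, hS, htS'⟩ := Finset.mem_image.1 h
        rw [h𝒮, Finset.mem_filter, Finset.mem_powerset] at hS
        refine tight G' x' hFrac hn S hS.1 hS.2.1 hS.2.2.1 hS.2.2.2.1 ?_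
        rw [hcut', hfil _ (hcutD S), hsum _ (hcutD S), div_eq_one_iff_eq h1t.ne']
        have h5 : (1 : ℝ) < (M ∩ G.cut S).card := by exact_mod_cast hS.2.2.2.2
        rw [hb] at htS'
        simp only at htS'
        rw [div_eq_iff (by linarith)] at htS'
        linarith
    obtain ⟨N, hN, hcN⟩ := hConcl c
    refine ⟨N, res_pm (Finset.filter_subset _ _) hN, hcN.trans ?_⟩
    have e1 : ∑ e ∈ G'.D, c e * x' e = (∑ e ∈ G.D, c e * x e - t * ∑ e ∈ M, c e) / (1 - t) := by
      have e2 : ∑ e ∈ G'.D, c e * x' e = ∑ e ∈ G.D, c e * x' e := by
        change ∑ e ∈ G.D.filter (fun e => 0 < x' e), c e * x' e = _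
        rw [Finset.sum_filter]
        refine Finset.sum_congr rfl fun e he => ?_
        split_ifs with h
        · rfl
        · rw [le_antisymm (not_lt.1 h) (hx'0 e he), mul_zero]
      rw [e2, eq_div_iff h1t.ne', Finset.sum_mul, Finset.mul_sum]
      have e3 : ∑ e ∈ M, t * c e = ∑ e ∈ G.D, if e ∈ M then t * c e else 0 := by
        rw [Finset.sum_ite_mem, Finset.inter_eq_right.2 hM.1]
      rw [e3, ← Finset.sum_sub_distrib]
      refine Finset.sum_congr rfl fun e _ => ?_
      rw [hx']
      simp only
      split_ifs <;> field_simp <;> ring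
    rw [e1, div_le_iff₀ h1t]
    have ht0 : 0 < t := by
      rcases Finset.mem_union.1 htR with h | h
      · obtain ⟨e, he, rfl⟩ := Finset.mem_image.1 h
        exact hG.pos e (hM.1 he)
      · obtain ⟨T, hT, rfl⟩ := Finset.mem_image.1 h
        rw [h𝒮, Finset.mem_filter, Finset.mem_powerset] at hT
        have h3 := hG.odd T hT.1 hT.2.1
        have h4 := htc T hT.1 hT.2.1 hT.2.2.1 hT.2.2.2.1
        have h5 : (1 : ℝ) < (M ∩ G.cut T).card := by exact_mod_cast hT.2.2.2.2
        exact div_pos (by rcases lt_or_eq_of_le h3 with h | h
                          · linarith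
                          · exact absurd h.symm h4) (by linarith)
    nlinarith

/-- Edmonds' theorem: for every cost function there is a perfect matching in the support which
costs at most as much as the fractional one. -/
theorem edmonds {G : Gr V E} {x : E → ℝ} (hG : Frac G x) (c : E → ℝ) :
    ∃ M, G.PM M ∧ ∑ e ∈ M, c e ≤ ∑ e ∈ G.D, c e * x e :=
  edmonds_aux _ _ G x hG rfl rfl c

end Pool.Agent.Helper97.FR
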