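import Pool.Agent.Helper97.FR.Defs

/-!
# The perfect matching polytope: existence of perfect matchings and gluing
-/

set_option autoImplicit false
set_option linter.unusedSectionVars false
open Finset

namespace Pool.Agent.Helper97.FR

open Pool.Agent.Helper93.F5

variable {V E : Type} [DecidableEq V] [DecidableEq E]

theorem Base.cut_all {G : Gr V E} (hG : Base G) : G.cut G.A = ∅ := by
  apply Finset.filter_eq_empty_iff.mpr
  intro e he
  rw [Finset.inter_eq_left.mpr (hG.sub e he), hG.two e he]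
  norm_num

theorem Frac.even {G : Gr V E} {x : E → ℝ} (hG : Frac G x) : Even G.A.card := by
  by_contra h
  rw [Nat.not_even_iff_odd] at h
  have h1 := hG.odd G.A (Finset.Subset.refl _) h
  rw [hG.cut_all, Finset.sum_empty] at h1
  linarith

/-- A graph with a point of the perfect matching polytope has a perfect matching. -/
theorem exists_pm {G : Gr V E} {x : E → ℝ} (hG : Frac G x) : ∃ M, G.PM M := by
  classical
  rcases tutte_fin G.A (fun p q => p ≠ q ∧ ∃ e ∈ G.D, G.inc e = {p, q})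
    (fun p q ⟨h1, e, he, h2⟩ => ⟨h1.symm, e, he, by rw [h2, Finset.pair_comm]⟩)
    (fun p h => h.1 rfl) with ⟨f, hf⟩ | ⟨U, hU, 𝒞, hcard, hC, hdisj⟩
  · refine ⟨G.D.filter (fun e => (∃ v ∈ G.A, G.inc e = {v, f v}) ∧
      ∀ hP : ∃ e' ∈ G.D, G.inc e' = G.inc e, hP.choose = e), Finset.filter_subset _ _, ?_⟩
    intro v hv
    obtain ⟨hv1, ⟨hv2, hex⟩, hv3⟩ := hf v hv
    have hch : ∀ P : Finset V, P = {v, f v} → ∀ hP : ∃ e' ∈ G.D, G.inc e' = P,
        hP.choose = hex.choose := by
      intro P hPe hP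
      subst hPe
      rfl
    rw [Finset.card_eq_one]
    refine ⟨hex.choose, ?_⟩
    obtain ⟨h1, h2⟩ := hex.choose_spec
    ext e
    rw [Finset.mem_filter, Finset.mem_filter, Finset.mem_singleton]
    constructor
    · rintro ⟨⟨he, ⟨u, hu, hue⟩, hc⟩, hve⟩
      have h3 : G.inc e = {v, f v} := by
        rw [hue] at hve ⊢
        rw [Finset.mem_insert, Finset.mem_singleton] at hve
        rcases hve with rfl | h4
        · rfl
        · have h5 := (hf u hu).2.2
          rw [← h4] at h5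
          rw [h5, h4, Finset.pair_comm]
      rw [← hc ⟨e, he, rfl⟩]
      exact hch _ h3 _
    · rintro rfl
      refine ⟨⟨h1, ⟨v, hv, h2⟩, ?_⟩, ?_⟩
      · intro hP
        exact hch _ h2 hP
      · rw [h2]
        exact Finset.mem_insert_self _ _
  · exfalso
    have key : ∀ C ∈ 𝒞, ∀ e ∈ G.cut C, ∃ p q, p ∈ C ∧ q ∈ U ∧ G.inc e = {p, q} := by
      intro C hCm e he
      obtain ⟨hCA, hCo, hCc⟩ := hC C hCm
      have heD := cut_sub _ _ he
      obtain ⟨p, q, hpq, hinc, hp, hq⟩ := hG.ends heD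
      rw [mem_cut hpq hinc] at he
      by_cases hpC : p ∈ C
      · have hqC : q ∉ C := fun h => he.2 (iff_of_true hpC h)
        refine ⟨p, q, hpC, ?_, hinc⟩
        by_contra hqU
        exact hqC (hCc p hpC q (Finset.mem_sdiff.2 ⟨hq, hqU⟩) ⟨hpq, e, heD, hinc⟩)
      · have hqC : q ∈ C := by
          by_contra h
          exact he.2 (iff_of_false hpC h)
        refine ⟨q, p, hqC, ?_, by rw [hinc, Finset.pair_comm]⟩
        by_contra hpU
        exact hpC (hCc q hqC p (Finset.mem_sdiff.2 ⟨hp, hpU⟩) ⟨hpq.symm, e, heD, by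
          rw [hinc, Finset.pair_comm]⟩)
    have h1 : (𝒞.card : ℝ) ≤ ∑ C ∈ 𝒞, ∑ e ∈ G.cut C, x e := by
      have : (𝒞.card : ℝ) = ∑ C ∈ 𝒞, (1 : ℝ) := by simp
      rw [this]
      refine Finset.sum_le_sum fun C hCm => ?_
      obtain ⟨hCA, hCo, _⟩ := hC C hCm
      exact hG.odd C (hCA.trans Finset.sdiff_subset) hCo
    have h2 : (U.card : ℝ) = ∑ v ∈ U, ∑ e ∈ G.D.filter (fun e => v ∈ G.inc e), x e := by
      have : (U.card : ℝ) = ∑ v ∈ U, (1 : ℝ) := by simp
      rw [this]
      exact Finset.sum_congr rfl fun v hv => (hG.deg v (hU hv)).symm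
    have h3 : ∑ C ∈ 𝒞, ∑ e ∈ G.cut C, x e =
        ∑ e ∈ G.D, ∑ C ∈ 𝒞.filter (fun C => e ∈ G.cut C), x e := by
      apply Finset.sum_comm'
      intro C e
      rw [Finset.mem_filter]
      constructor
      · rintro ⟨a, b⟩
        exact ⟨⟨a, b⟩, cut_sub _ _ b⟩
      · rintro ⟨⟨a, b⟩, _⟩
        exact ⟨a, b⟩
    have h4 : ∑ v ∈ U, ∑ e ∈ G.D.filter (fun e => v ∈ G.inc e), x e =
        ∑ e ∈ G.D, ∑ v ∈ U.filter (fun v => v ∈ G.inc e), x e := by
      apply Finset.sum_comm'
      intro v e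
      rw [Finset.mem_filter, Finset.mem_filter]
      tauto
    have h5 : ∑ e ∈ G.D, ∑ C ∈ 𝒞.filter (fun C => e ∈ G.cut C), x e ≤
        ∑ e ∈ G.D, ∑ v ∈ U.filter (fun v => v ∈ G.inc e), x e := by
      refine Finset.sum_le_sum fun e he => ?_
      rw [Finset.sum_const, Finset.sum_const, nsmul_eq_mul, nsmul_eq_mul]
      refine mul_le_mul_of_nonneg_right ?_ (hG.pos e he).le
      have : (𝒞.filter (fun C => e ∈ G.cut C)).card ≤ (U.filter (fun v => v ∈ G.inc e)).card := by
        rcases (𝒞.filter (fun C => e ∈ G.cut C)).eq_empty_or_nonempty with h0 | ⟨C, hCf⟩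
        · rw [h0, Finset.card_empty]
          exact Nat.zero_le _
        · rw [Finset.mem_filter] at hCf
          obtain ⟨p, q, hp, hq, hinc⟩ := key C hCf.1 e hCf.2
          have hpU : p ∉ U := (Finset.mem_sdiff.1 ((hC C hCf.1).1 hp)).2
          have h6 : 𝒞.filter (fun C => e ∈ G.cut C) ⊆ {C} := by
            intro C' hC'
            rw [Finset.mem_filter] at hC'
            rw [Finset.mem_singleton]
            by_contra hne
            obtain ⟨p', q', hp', hq', hinc'⟩ := key C' hC'.1 e hC'.2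
            have hp'U : p' ∉ U := (Finset.mem_sdiff.1 ((hC C' hC'.1).1 hp')).2
            have hpp : p' ∈ ({p, q} : Finset V) := by
              rw [← hinc, hinc']
              exact Finset.mem_insert_self _ _
            rw [Finset.mem_insert, Finset.mem_singleton] at hpp
            rcases hpp with rfl | rfl
            · exact Finset.disjoint_left.1 (hdisj C' hC'.1 C hCf.1 hne) hp' hp
            · exact hp'U hq
          have h7 : 0 < (U.filter (fun v => v ∈ G.inc e)).card := by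
            rw [Finset.card_pos]
            refine ⟨q, Finset.mem_filter.2 ⟨hq, ?_⟩⟩
            rw [hinc]
            simp
          have h8 := Finset.card_le_card h6
          rw [Finset.card_singleton] at h8
          omega
      exact_mod_cast this
    have h6 : (U.card : ℝ) < 𝒞.card := by exact_mod_cast hcard
    linarith

section Glue

variable {G : Gr V E} {S : Finset V} {w w' : V}

theorem con_D_not_cut (hG : Base G) {e : E} (he : e ∈ (con G S w).D) (hc : e ∉ G.cut S) :
    G.inc e ⊆ S := by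
  have he' := Finset.mem_filter.1 he
  have hpos : 0 < (G.inc e ∩ S).card := Finset.card_pos.2 he'.2
  have h2 := hG.two e he'.1
  have h3 : (G.inc e ∩ S).card ≠ 1 := fun h => hc (Finset.mem_filter.2 ⟨he'.1, h⟩)
  have h4 : (G.inc e ∩ S).card ≤ (G.inc e).card := Finset.card_le_card Finset.inter_subset_left
  have h5 : G.inc e ∩ S = G.inc e := Finset.eq_of_subset_of_card_le Finset.inter_subset_left (by omega)
  exact Finset.inter_eq_left.1 h5

theorem con_D_cut (hG : Base G) {e : E} (he : e ∈ (con G S w).D) {v : V} (hv : v ∈ G.inc e)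
    (hvS : v ∉ S) : e ∈ G.cut S := by
  by_contra hc
  exact hvS (con_D_not_cut hG he hc hv)

theorem pm_cut_one (hG : Base G) (hw : w ∉ S) {M : Finset E} (hM : (con G S w).PM M) :
    (M ∩ G.cut S).card = 1 := by
  rw [← hM.2 w (Finset.mem_insert_self _ _)]
  congr 1
  ext e
  rw [Finset.mem_inter, Finset.mem_filter]
  constructor
  · rintro ⟨h1, h2⟩
    exact ⟨h1, (mem_con_w hG hw (hM.1 h1)).2 h2⟩
  · rintro ⟨h1, h2⟩
    exact ⟨h1, (mem_con_w hG hw (hM.1 h1)).1 h2⟩

theorem pm_cut_eq (hG : Base G) (hw : w ∉ S) {M : Finset E} (hM : (con G S w).PM M) {e : E}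
    (he : e ∈ M) (hc : e ∈ G.cut S) : M ∩ G.cut S = {e} := by
  obtain ⟨f, hf⟩ := Finset.card_eq_one.1 (pm_cut_one hG hw hM)
  have : e ∈ M ∩ G.cut S := Finset.mem_inter.2 ⟨he, hc⟩
  rw [hf, Finset.mem_singleton] at this
  rw [hf, this]

theorem glue_pm (hG : Base G) (hw : w ∉ S) (hw' : w' ∈ S) {M N : Finset E}
    (hM : (con G S w).PM M) (hN : (con G (G.A \ S) w').PM N) {e : E} (heM : e ∈ M) (heN : e ∈ N)
    (hc : e ∈ G.cut S) : G.PM ((M \ G.cut S) ∪ N) := by
  have hw'' : w' ∉ G.A \ S := fun h => (Finset.mem_sdiff.1 h).2 hw'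
  have hM1 := pm_cut_eq hG hw hM heM hc
  have hN1 := pm_cut_eq hG hw'' hN heN (by rw [hG.cut_compl]; exact hc)
  rw [hG.cut_compl] at hN1
  refine ⟨?_, ?_⟩
  · intro f hf
    rw [Finset.mem_union, Finset.mem_sdiff] at hf
    rcases hf with hf | hf
    · exact (Finset.mem_filter.1 (hM.1 hf.1)).1
    · exact (Finset.mem_filter.1 (hN.1 hf)).1
  · intro v hv
    by_cases hvS : v ∈ S
    · rw [← hM.2 v (Finset.mem_insert_of_mem hvS)]
      congr 1
      ext f
      rw [Finset.mem_filter, Finset.mem_filter, mem_con_inc hw hvS, Finset.mem_union,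
        Finset.mem_sdiff]
      constructor
      · rintro ⟨h1 | h1, h2⟩
        · exact ⟨h1.1, h2⟩
        · have h3 : f ∈ G.cut (G.A \ S) := con_D_cut hG (hN.1 h1) h2 (fun h =>
            (Finset.mem_sdiff.1 h).2 hvS)
          rw [hG.cut_compl] at h3
          have h4 : f ∈ N ∩ G.cut S := Finset.mem_inter.2 ⟨h1, h3⟩
          rw [hN1, Finset.mem_singleton] at h4
          rw [h4] at h2 ⊢
          exact ⟨heM, h2⟩
      · rintro ⟨h1, h2⟩
        refine ⟨?_, h2⟩
        by_cases h3 : f ∈ G.cut S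
        · have h4 : f ∈ M ∩ G.cut S := Finset.mem_inter.2 ⟨h1, h3⟩
          rw [hM1, Finset.mem_singleton] at h4
          right
          rw [h4]
          exact heN
        · left
          exact ⟨h1, h3⟩
    · have hvS' : v ∈ G.A \ S := Finset.mem_sdiff.2 ⟨hv, hvS⟩
      rw [← hN.2 v (Finset.mem_insert_of_mem hvS')]
      congr 1
      ext f
      rw [Finset.mem_filter, Finset.mem_filter, mem_con_inc hw'' hvS', Finset.mem_union,
        Finset.mem_sdiff]
      constructor
      · rintro ⟨h1 | h1, h2⟩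
        · exact absurd (con_D_not_cut hG (hM.1 h1.1) h1.2 h2) hvS
        · exact ⟨h1, h2⟩
      · rintro ⟨h1, h2⟩
        exact ⟨Or.inr h1, h2⟩

theorem glue_disj (hG : Base G) {M N : Finset E}
    (hM : M ⊆ (con G S w).D) (hN : N ⊆ (con G (G.A \ S) w').D) :
    Disjoint (M \ G.cut S) N := by
  rw [Finset.disjoint_left]
  intro f h1 h2
  rw [Finset.mem_sdiff] at h1
  have h3 := con_D_not_cut hG (hM h1.1) h1.2
  obtain ⟨v, hv⟩ := (Finset.mem_filter.1 (hN h2)).2
  rw [Finset.mem_inter, Finset.mem_sdiff] at hv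
  exact hv.2.2 (h3 hv.1)

/-- The conclusion of Edmonds' theorem. -/
def Concl (G : Gr V E) (x : E → ℝ) : Prop :=
  ∀ c : E → ℝ, ∃ M, G.PM M ∧ ∑ e ∈ M, c e ≤ ∑ e ∈ G.D, c e * x e

theorem sum_split (hG : Base G) (f : E → ℝ) :
    ∑ e ∈ G.D, f e = ∑ e ∈ (con G S w).D \ G.cut S, f e + ∑ e ∈ (con G (G.A \ S) w').D, f e := by
  rw [← Finset.sum_union (glue_disj hG (Finset.Subset.refl _) (Finset.Subset.refl _))]
  congr 1
  ext e
  rw [Finset.mem_union, Finset.mem_sdiff]
  constructor
  · intro he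
    by_cases h1 : G.inc e ⊆ S
    · left
      have h2 : G.inc e ∩ S = G.inc e := Finset.inter_eq_left.2 h1
      refine ⟨Finset.mem_filter.2 ⟨he, ?_⟩, ?_⟩
      · rw [h2]
        exact Finset.card_pos.1 (by rw [hG.two e he]; norm_num)
      · intro h3
        have h4 := (Finset.mem_filter.1 h3).2
        rw [h2, hG.two e he] at h4
        omega
    · right
      refine Finset.mem_filter.2 ⟨he, ?_⟩
      rw [Finset.not_subset] at h1
      obtain ⟨v, hv, hvS⟩ := h1
      exact ⟨v, Finset.mem_inter.2 ⟨hv, Finset.mem_sdiff.2 ⟨hG.sub e he hv, hvS⟩⟩⟩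
  · rintro (h | h)
    · exact (Finset.mem_filter.1 h.1).1
    · exact (Finset.mem_filter.1 h).1

end Glue

end Pool.Agent.Helper97.FR
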