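import Pool.Agent.Helper97.FR.Three
import Pool.Agent.Helper93.F5.Flow

/-!
# Translation to multigraphs and Fano flows
-/

set_option autoImplicit false
open Finset

namespace Pool.Agent.Helper97.FR

open Pool.Agent.Helper93.F5

/-- the four lines of the Fano plane which are not coordinate lines -/
def fourSet : Finset (Finset (Fin 3 → ZMod 2)) :=
  (univ.filter (fun pq : (Fin 3 → ZMod 2) × (Fin 3 → ZMod 2) =>
    pq.1 ≠ 0 ∧ pq.2 ≠ 0 ∧ pq.1 + pq.2 ≠ 0 ∧ ∀ i, ¬ (pq.1 i = 0 ∧ pq.2 i = 0))).image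
      (fun pq => ({pq.1, pq.2, pq.1 + pq.2} : Finset (Fin 3 → ZMod 2)))

theorem four_lines : fourSet.card ≤ 4 := by
  decide +kernel

section
variable {V E : Type} [Fintype V] [DecidableEq V] [Fintype E] [DecidableEq E]

/-- three perfect matchings with empty intersection give an `F_4`-flow -/
theorem flow_of_three {s t : E → V}
    (h3 : ∀ v : V, (univ.filter (fun e : E => s e = v ∨ t e = v)).card = 3)
    (P : Fin 3 → Finset E)
    (hP : ∀ i, ∀ v, ((P i).filter (fun e : E => s e = v ∨ t e = v)).card = 1)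
    (hPe : ∀ e, ∃ i, e ∉ P i) :
    ∃ f : E → (Fin 3 → ZMod 2),
        (∀ e, f e ≠ 0) ∧
        (∀ v : V, ∑ e ∈ univ.filter (fun e : E => s e = v ∨ t e = v), f e = 0) ∧
        (univ.image (fun v : V =>
          (univ.filter (fun e : E => s e = v ∨ t e = v)).image f)).card ≤ 4 ∧
        ∀ e i, f e i = if e ∈ P i then 0 else 1 := by
  let f : E → (Fin 3 → ZMod 2) := fun e i => if e ∈ P i then 0 else 1
  have hf0 : ∀ e, f e ≠ 0 := by
    intro e he
    obtain ⟨i, hi⟩ := hPe e
    have h1 := congrFun he i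
    simp only [f, Pi.zero_apply, if_neg hi] at h1
    exact one_ne_zero h1
  have hsum : ∀ v : V, ∑ e ∈ univ.filter (fun e : E => s e = v ∨ t e = v), f e = 0 := by
    intro v
    funext i
    rw [Finset.sum_apply, Pi.zero_apply]
    have h1 : ∀ e ∈ univ.filter (fun e : E => s e = v ∨ t e = v),
        f e i = 1 - (if e ∈ P i then 1 else 0) := by
      intro e _
      simp only [f]
      split_ifs <;> simp
    rw [Finset.sum_congr rfl h1, Finset.sum_sub_distrib, Finset.sum_const, h3 v]
    have h2 : ∑ e ∈ univ.filter (fun e : E => s e = v ∨ t e = v), (if e ∈ P i then (1 : ZMod 2) else 0) =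
        ((P i).filter (fun e : E => s e = v ∨ t e = v)).card := by
      rw [Finset.sum_ite_mem, Finset.sum_const, nsmul_eq_mul, mul_one]
      congr 2
      ext e
      simp only [Finset.mem_inter, Finset.mem_filter, Finset.mem_univ, true_and]
      tauto
    rw [h2, hP i v]
    decide
  refine ⟨f, hf0, hsum, ?_, fun e i => rfl⟩
  refine (Finset.card_le_card ?_).trans four_lines
  intro L hL
  rw [Finset.mem_image] at hL
  obtain ⟨v, -, rfl⟩ := hL
  obtain ⟨a, b, c, hab, hac, hbc, hS⟩ := Finset.card_eq_three.mp (h3 v)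
  have h1 := hsum v
  rw [hS, Finset.sum_insert (by simp [hab, hac]), Finset.sum_pair hbc] at h1
  have hc : f c = f a + f b := by
    have := char2_add h1
    exact this
  rw [hS]
  have himg : ({a, b, c} : Finset E).image f = {f a, f b, f a + f b} := by
    rw [Finset.image_insert, Finset.image_insert, Finset.image_singleton, hc]
  rw [himg]
  unfold fourSet
  rw [Finset.mem_image]
  refine ⟨(f a, f b), Finset.mem_filter.mpr ⟨Finset.mem_univ _, hf0 a, hf0 b, ?_, ?_⟩, rfl⟩
  · show f a + f b ≠ 0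
    rw [← hc]; exact hf0 c
  · intro i hi
    -- then `a` and `b` are both in `P i`
    have ha : a ∈ P i := by
      by_contra h
      have := hi.1
      simp only [f, if_neg h] at this
      exact one_ne_zero this
    have hb : b ∈ P i := by
      by_contra h
      have := hi.2
      simp only [f, if_neg h] at this
      exact one_ne_zero this
    have h2 := hP i v
    have h3' : ({a, b} : Finset E) ⊆ (P i).filter (fun e : E => s e = v ∨ t e = v) := by
      intro e he
      have he' : e ∈ univ.filter (fun e : E => s e = v ∨ t e = v) := by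
        rw [hS]
        simp only [Finset.mem_insert, Finset.mem_singleton] at he ⊢
        tauto
      rw [Finset.mem_filter] at he'
      rw [Finset.mem_filter]
      refine ⟨?_, he'.2⟩
      simp only [Finset.mem_insert, Finset.mem_singleton] at he
      rcases he with rfl | rfl
      · exact ha
      · exact hb
    have h4 := Finset.card_le_card h3'
    rw [Finset.card_pair hab, h2] at h4
    omega

/-- the edge cut -/
def cutS (s t : E → V) (S : Finset V) : Finset E :=
  univ.filter (fun e : E => (s e ∈ S ∧ t e ∉ S) ∨ (s e ∉ S ∧ t e ∈ S))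

/-- perfect matchings -/
def IsPM (s t : E → V) (M : Finset E) : Prop :=
  ∀ v : V, (M.filter (fun e : E => s e = v ∨ t e = v)).card = 1

theorem isPM_iff {s t : E → V} {M : Finset E} : IsPM s t M ↔ (toGr s t).PM M := by
  unfold IsPM Gr.PM
  constructor
  · intro h
    refine ⟨Finset.subset_univ _, fun v _ => ?_⟩
    rw [filter_inc]
    exact h v
  · rintro ⟨-, h⟩ v
    have := h v (Finset.mem_univ v)
    rwa [filter_inc] at this

theorem main {s t : E → V} (hl : ∀ e, s e ≠ t e)
    (h3 : ∀ v : V, (univ.filter (fun e : E => s e = v ∨ t e = v)).card = 3)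
    (hb : ∀ S : Finset V, (cutS s t S).card ≠ 1) {l : ℕ} (hlo : Odd l) (hl5 : 5 ≤ l)
    (hcut : ∀ S : Finset V, Odd (cutS s t S).card → (cutS s t S).card ≤ 3 ∨ l ≤ (cutS s t S).card) :
    (∀ e0 : E, ∃ J M N : Finset E, IsPM s t J ∧ IsPM s t M ∧ IsPM s t N ∧ e0 ∈ J ∧
      (∀ S : Finset V, (cutS s t S).card = 3 → (J ∩ cutS s t S).card = 1 ∧
        (M ∩ cutS s t S).card = 1 ∧ (N ∩ cutS s t S).card = 1) ∧
      2 * l * (J ∩ M).card ≤ Fintype.card V ∧
      2 * l * (l + 2) * (J ∩ M ∩ N).card ≤ Fintype.card V) ∧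
    (∀ J M : Finset E, IsPM s t J → IsPM s t M →
      (∀ S : Finset V, (cutS s t S).card = 3 → ¬ cutS s t S ⊆ J ∧ ¬ cutS s t S ⊆ M) →
      (∀ S : Finset V, (cutS s t S).card = l → ¬ cutS s t S ⊆ J ∩ M) →
      ∃ N : Finset E, IsPM s t N ∧ (l + 2) * (J ∩ M ∩ N).card ≤ (J ∩ M).card) := by
  have hG := toGr_cubic hl h3 hb
  have hcutS : ∀ X : Finset V, (toGr s t).cut X = cutS s t X := toGr_cut hl
  have hcut' : ∀ X ⊆ (toGr s t).A, Odd X.card →
      ((toGr s t).cut X).card = 3 ∨ l ≤ ((toGr s t).cut X).card := by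
    intro X hX ho
    have h1 := three_le hG hX ho
    have h2 := cut_parity hG hX
    rw [hcutS] at h1 h2 ⊢
    rcases hcut X (by rw [Nat.odd_iff] at ho ⊢; omega) with h | h
    · left; omega
    · right; exact h
  have hmem : ∀ (k : ℕ) (X : Finset V), Odd k → (X ∈ cuts (toGr s t) k ↔ (cutS s t X).card = k) := by
    intro k X hk
    rw [mem_cuts, hcutS]
    constructor
    · rintro ⟨-, -, h⟩; exact h
    · intro h
      refine ⟨Finset.subset_univ _, ?_, h⟩
      have h2 := cut_parity hG (Finset.subset_univ X)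
      rw [hcutS, h] at h2
      rw [Nat.odd_iff] at hk ⊢
      omega
  have hstep3 : ∀ J M : Finset E, (toGr s t).PM J → (toGr s t).PM M →
      (∀ X ∈ cuts (toGr s t) 3, (J ∩ (toGr s t).cut X).card = 1) →
      (∀ X ∈ cuts (toGr s t) 3, (M ∩ (toGr s t).cut X).card = 1) →
      (∀ X ∈ cuts (toGr s t) l, ¬ (toGr s t).cut X ⊆ J ∩ M) →
      ∃ N, (toGr s t).PM N ∧ (∀ X ∈ cuts (toGr s t) 3, (N ∩ (toGr s t).cut X).card = 1) ∧
        (l + 2) * (J ∩ M ∩ N).card ≤ (J ∩ M).card := fun J M hJ hM h1 h2 h3' =>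
    exists_N hG hlo hl5 hcut' hJ hM h1 h2 h3'
  refine ⟨fun e0 => ?_, ?_⟩
  · obtain ⟨J, hJ, heJ, hJ3⟩ := exists_J hG (e0 := e0) (Finset.mem_univ e0)
    obtain ⟨M, hM, hM3, hMl, hJM⟩ := exists_M hG hlo hl5 hcut' hJ hJ3
    obtain ⟨N, hN, hN3, hJMN⟩ := hstep3 J M hJ hM hJ3 hM3 (fun X hX hsub => by
      have h1 := hMl X hX (hsub.trans Finset.inter_subset_left)
      have h2 : M ∩ (toGr s t).cut X = (toGr s t).cut X :=
        Finset.inter_eq_right.2 (hsub.trans Finset.inter_subset_right)
      rw [h2, (mem_cuts.1 hX).2.2] at h1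
      omega)
    have hJc := pm_card hG hJ
    have hA : (toGr s t).A.card = Fintype.card V := rfl
    rw [hA] at hJc
    refine ⟨J, M, N, isPM_iff.2 hJ, isPM_iff.2 hM, isPM_iff.2 hN, heJ, ?_, ?_, ?_⟩
    · intro S hS
      have hS' := (hmem 3 S (by decide)).2 hS
      rw [← hcutS]
      exact ⟨hJ3 S hS', hM3 S hS', hN3 S hS'⟩
    · have h1 : 2 * (l * (J ∩ M).card) ≤ 2 * J.card := Nat.mul_le_mul_left 2 hJM
      calc 2 * l * (J ∩ M).card = 2 * (l * (J ∩ M).card) := by ring
        _ ≤ 2 * J.card := h1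
        _ = Fintype.card V := hJc
    · calc 2 * l * (l + 2) * (J ∩ M ∩ N).card = 2 * (l * ((l + 2) * (J ∩ M ∩ N).card)) := by ring
        _ ≤ 2 * (l * (J ∩ M).card) := Nat.mul_le_mul_left 2 (Nat.mul_le_mul_left l hJMN)
        _ ≤ 2 * J.card := Nat.mul_le_mul_left 2 hJM
        _ = Fintype.card V := hJc
  · intro J M hJ hM hJM3 hJMl
    have hJ' := isPM_iff.1 hJ
    have hM' := isPM_iff.1 hM
    have hone : ∀ K : Finset E, (toGr s t).PM K → (∀ S : Finset V, (cutS s t S).card = 3 →
        ¬ cutS s t S ⊆ K) → ∀ X ∈ cuts (toGr s t) 3, (K ∩ (toGr s t).cut X).card = 1 := by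
      intro K hK hK3 X hX
      have hX' := mem_cuts.1 hX
      have h1 := pm_parity hG hK hX'.1
      have h2 : (K ∩ (toGr s t).cut X).card ≤ 3 := by
        rw [← hX'.2.2]
        exact Finset.card_le_card Finset.inter_subset_right
      have h4 : (K ∩ (toGr s t).cut X).card ≠ 3 := by
        intro h
        have h5 : K ∩ (toGr s t).cut X = (toGr s t).cut X :=
          Finset.eq_of_subset_of_card_le Finset.inter_subset_right (by rw [h, hX'.2.2])
        have h6 := Finset.inter_eq_right.1 h5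
        rw [hcutS] at h6
        exact hK3 X ((hmem 3 X (by decide)).1 hX) h6
      have h7 := hX'.2.1
      rw [Nat.odd_iff] at h7
      omega
    obtain ⟨N, hN, -, h⟩ := hstep3 J M hJ' hM' (hone J hJ' fun S hS => (hJM3 S hS).1)
      (hone M hM' fun S hS => (hJM3 S hS).2) (fun X hX => by
        rw [hcutS]
        exact hJMl X ((hmem l X hlo).1 hX))
    exact ⟨N, isPM_iff.2 hN, h⟩

end

end Pool.Agent.Helper97.FR
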