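import Pool.Agent.Helper97.FR.Edmonds

/-!
# Three perfect matchings with small intersection

`G` cubic and bridgeless, all odd cuts of size `3` or at least `l` (`l ≥ 5` odd). With weight `1/3`
one finds `J` meeting all `3`-cuts once; with weights `1/l` (on `J`), `(l-1)/(2l)` one finds `M` meeting
once all `3`-cuts and all `l`-cuts inside `J`, with `l |J ∩ M| ≤ |J|`; with weights `1/(l+2)` (on
`J ∩ M`), `(l+3)/(4(l+2))`, `(l+1)/(2(l+2))` one finds `N` with `(l+2) |J ∩ M ∩ N| ≤ |J ∩ M|`.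
-/

set_option autoImplicit false
open Finset

namespace Pool.Agent.Helper97.FR

open Pool.Agent.Helper93.F5

variable {V E : Type} [DecidableEq V] [DecidableEq E] {G : Gr V E}

theorem base_of_cubic (hG : G.Cubic) : Base G := ⟨hG.two, hG.sub⟩

theorem pm_parity (hG : G.Cubic) {M : Finset E} (hM : G.PM M) {X : Finset V} (hX : X ⊆ G.A) :
    (M ∩ G.cut X).card % 2 = X.card % 2 := by
  have h := parity hG hM.1 X
  rw [← h]
  congr 1
  calc ∑ v ∈ X, (M.filter (fun e => v ∈ G.inc e)).card = ∑ v ∈ X, 1 :=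
        Finset.sum_congr rfl fun v hv => hM.2 v (hX hv)
    _ = X.card := by simp

theorem pm_card (hG : G.Cubic) {M : Finset E} (hM : G.PM M) : 2 * M.card = G.A.card := by
  have h := Finset.sum_card_bipartiteAbove_eq_sum_card_bipartiteBelow (s := G.A) (t := M)
      (fun v e => v ∈ G.inc e)
  unfold Finset.bipartiteAbove Finset.bipartiteBelow at h
  have h1 : ∑ v ∈ G.A, (M.filter (fun e => v ∈ G.inc e)).card = G.A.card := by
    calc ∑ v ∈ G.A, (M.filter (fun e => v ∈ G.inc e)).card = ∑ v ∈ G.A, 1 :=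
          Finset.sum_congr rfl fun v hv => hM.2 v hv
      _ = G.A.card := by simp
  have h2 : ∑ e ∈ M, (G.A.filter (fun v => v ∈ G.inc e)).card = 2 * M.card := by
    calc ∑ e ∈ M, (G.A.filter (fun v => v ∈ G.inc e)).card = ∑ e ∈ M, 2 := by
          refine Finset.sum_congr rfl fun e he => ?_
          have h3 : G.A.filter (fun v => v ∈ G.inc e) = G.inc e := by
            rw [Finset.filter_mem_eq_inter]
            exact Finset.inter_eq_right.2 (hG.sub e (hM.1 he))
          rw [h3, hG.two e (hM.1 he)]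
      _ = 2 * M.card := by simp [mul_comm]
  rw [← h2, ← h1]
  exact h.symm

/-- A perfect matching of small cost which meets once the tight cuts of a given family. -/
theorem tight_pm (hG : G.Cubic) {x : E → ℝ} (hx : Frac G x) (T : Finset (Finset V))
    (hT : ∀ X ∈ T, X ⊆ G.A ∧ Odd X.card ∧ ∑ e ∈ G.cut X, x e = 1) (c : E → ℝ) :
    ∃ M, G.PM M ∧ (∀ X ∈ T, (M ∩ G.cut X).card = 1) ∧ ∑ e ∈ M, c e ≤ ∑ e ∈ G.D, c e * x e := by
  set K : ℝ := ∑ e ∈ G.D, |c e| + ∑ e ∈ G.D, |c e * x e| + 1 with hK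
  obtain ⟨M, hM, hc⟩ := edmonds hx (fun e => K * ∑ X ∈ T, (if e ∈ G.cut X then (1 : ℝ) else 0) + c e)
  have hKpos : 0 < K := by
    have h1 : 0 ≤ ∑ e ∈ G.D, |c e| := Finset.sum_nonneg fun e _ => abs_nonneg _
    have h2 : 0 ≤ ∑ e ∈ G.D, |c e * x e| := Finset.sum_nonneg fun e _ => abs_nonneg _
    linarith
  have e1 : ∑ e ∈ M, (K * ∑ X ∈ T, (if e ∈ G.cut X then (1 : ℝ) else 0) + c e) =
      K * ∑ X ∈ T, ((M ∩ G.cut X).card : ℝ) + ∑ e ∈ M, c e := by
    rw [Finset.sum_add_distrib, ← Finset.mul_sum, Finset.sum_comm]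
    congr 2
    refine Finset.sum_congr rfl fun X _ => ?_
    rw [Finset.sum_ite_mem, Finset.sum_const, nsmul_eq_mul, mul_one]
  have e2 : ∑ e ∈ G.D, (K * ∑ X ∈ T, (if e ∈ G.cut X then (1 : ℝ) else 0) + c e) * x e =
      K * T.card + ∑ e ∈ G.D, c e * x e := by
    have e3 : ∀ e ∈ G.D, (K * ∑ X ∈ T, (if e ∈ G.cut X then (1 : ℝ) else 0) + c e) * x e =
        K * ∑ X ∈ T, (if e ∈ G.cut X then x e else 0) + c e * x e := by
      intro e _
      rw [add_mul, mul_assoc, Finset.sum_mul]
      congr 2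
      refine Finset.sum_congr rfl fun X _ => ?_
      rw [ite_mul, one_mul, zero_mul]
    rw [Finset.sum_congr rfl e3, Finset.sum_add_distrib, ← Finset.mul_sum, Finset.sum_comm]
    congr 2
    have e4 : ∀ X ∈ T, ∑ e ∈ G.D, (if e ∈ G.cut X then x e else 0) = 1 := by
      intro X hX
      rw [Finset.sum_ite_mem, Finset.inter_eq_right.2 (cut_sub G X)]
      exact (hT X hX).2.2
    rw [Finset.sum_congr rfl e4, Finset.sum_const, nsmul_eq_mul, mul_one]
  rw [e1, e2] at hc
  have hge : ∀ X ∈ T, 1 ≤ (M ∩ G.cut X).card := by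
    intro X hX
    have h1 := pm_parity hG hM (hT X hX).1
    have h2 := (hT X hX).2.1
    rw [Nat.odd_iff] at h2
    omega
  have hb1 : ∑ e ∈ G.D, c e * x e ≤ ∑ e ∈ G.D, |c e * x e| :=
    Finset.sum_le_sum fun e _ => le_abs_self _
  have hb2 : -∑ e ∈ M, c e ≤ ∑ e ∈ G.D, |c e| := by
    rw [← Finset.sum_neg_distrib]
    refine (Finset.sum_le_sum fun e _ => neg_le_abs (c e)).trans ?_
    exact Finset.sum_le_sum_of_subset_of_nonneg hM.1 fun e _ _ => abs_nonneg _
  have hsum : ∑ X ∈ T, (M ∩ G.cut X).card = T.card := by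
    have h1 : T.card ≤ ∑ X ∈ T, (M ∩ G.cut X).card := by
      calc T.card = ∑ X ∈ T, 1 := by simp
        _ ≤ _ := Finset.sum_le_sum hge
    by_contra hne
    have h2 : T.card + 1 ≤ ∑ X ∈ T, (M ∩ G.cut X).card := by omega
    have h3 : (T.card : ℝ) + 1 ≤ ∑ X ∈ T, ((M ∩ G.cut X).card : ℝ) := by exact_mod_cast h2
    have h4 := mul_le_mul_of_nonneg_left h3 hKpos.le
    linarith
  refine ⟨M, hM, ?_, ?_⟩
  · intro X hX
    by_contra hne
    have h1 : T.card < ∑ X ∈ T, (M ∩ G.cut X).card := by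
      calc T.card = ∑ X ∈ T, 1 := by simp
        _ < _ := Finset.sum_lt_sum hge ⟨X, hX, by
          have := hge X hX
          omega⟩
    omega
  · have h1 : ∑ X ∈ T, ((M ∩ G.cut X).card : ℝ) = T.card := by exact_mod_cast hsum
    rw [h1] at hc
    linarith

/-- indicator -/
noncomputable def ind (J : Finset E) (e : E) : ℝ := if e ∈ J then 1 else 0

theorem sum_ind (J S : Finset E) : ∑ e ∈ S, ind J e = ((J ∩ S).card : ℝ) := by
  unfold ind
  rw [Finset.sum_ite_mem, Finset.sum_const, nsmul_eq_mul, mul_one, Finset.inter_comm]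

theorem sum_w (J M S : Finset E) (a b c : ℝ) :
    ∑ e ∈ S, (a - b * ind J e - c * ind M e) =
      a * S.card - b * (J ∩ S).card - c * (M ∩ S).card := by
  rw [Finset.sum_sub_distrib, Finset.sum_sub_distrib, ← Finset.mul_sum, ← Finset.mul_sum, sum_ind,
    sum_ind, Finset.sum_const, nsmul_eq_mul]
  ring

theorem star_inter {M : Finset E} (hM : G.PM M) {v : V} (hv : v ∈ G.A) :
    (M ∩ G.D.filter (fun e => v ∈ G.inc e)).card = 1 := by
  rw [← hM.2 v hv]
  congr 1
  ext e
  rw [Finset.mem_inter, Finset.mem_filter, Finset.mem_filter]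
  constructor
  · rintro ⟨h1, _, h2⟩; exact ⟨h1, h2⟩
  · rintro ⟨h1, h2⟩; exact ⟨h1, hM.1 h1, h2⟩

/-- the cuts of size `k` with an odd side -/
def cuts (G : Gr V E) (k : ℕ) : Finset (Finset V) :=
  G.A.powerset.filter fun X => Odd X.card ∧ (G.cut X).card = k

theorem mem_cuts {k : ℕ} {X : Finset V} :
    X ∈ cuts G k ↔ X ⊆ G.A ∧ Odd X.card ∧ (G.cut X).card = k := by
  unfold cuts
  rw [Finset.mem_filter, Finset.mem_powerset]

theorem three_le (hG : G.Cubic) {X : Finset V} (hX : X ⊆ G.A) (ho : Odd X.card) :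
    3 ≤ (G.cut X).card := by
  have h1 := cut_parity hG hX
  have h2 := hG.bridge X hX
  rw [Nat.odd_iff] at ho
  omega

/-- step 1 -/
theorem exists_J (hG : G.Cubic) {e0 : E} (he0 : e0 ∈ G.D) :
    ∃ J, G.PM J ∧ e0 ∈ J ∧ ∀ X ∈ cuts G 3, (J ∩ G.cut X).card = 1 := by
  have hx : Frac G (fun _ => (1 / 3 : ℝ)) := by
    refine ⟨base_of_cubic hG, fun e _ => by norm_num, fun v hv => ?_, fun X hX ho => ?_⟩
    · rw [Finset.sum_const, hG.deg v hv]
      norm_num
    · rw [Finset.sum_const, nsmul_eq_mul]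
      have h1 : (3 : ℝ) ≤ (G.cut X).card := by exact_mod_cast three_le hG hX ho
      linarith
  obtain ⟨J, hJ, h1, h2⟩ := tight_pm hG hx (cuts G 3) (fun X hX => by
    rw [mem_cuts] at hX
    refine ⟨hX.1, hX.2.1, ?_⟩
    rw [Finset.sum_const, hX.2.2]
    norm_num) (fun e => if e = e0 then -1 else 0)
  refine ⟨J, hJ, ?_, h1⟩
  by_contra hne
  have h3 : ∑ e ∈ J, (if e = e0 then (-1 : ℝ) else 0) = 0 := by
    refine Finset.sum_eq_zero fun e he => ?_
    rw [if_neg]
    rintro rfl
    exact hne he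
  have h4 : ∑ e ∈ G.D, (if e = e0 then (-1 : ℝ) else 0) * (1 / 3) = -1 / 3 := by
    rw [Finset.sum_eq_single_of_mem e0 he0]
    · rw [if_pos rfl]; norm_num
    · intro b _ hb
      rw [if_neg hb, zero_mul]
  rw [h3, h4] at h2
  norm_num at h2

/-- step 2 -/
theorem exists_M (hG : G.Cubic) {l : ℕ} (hl : Odd l) (hl5 : 5 ≤ l)
    (hcut : ∀ X ⊆ G.A, Odd X.card → (G.cut X).card = 3 ∨ l ≤ (G.cut X).card) {J : Finset E}
    (hJ : G.PM J) (hJ3 : ∀ X ∈ cuts G 3, (J ∩ G.cut X).card = 1) :
    ∃ M, G.PM M ∧ (∀ X ∈ cuts G 3, (M ∩ G.cut X).card = 1) ∧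
      (∀ X ∈ cuts G l, G.cut X ⊆ J → (M ∩ G.cut X).card = 1) ∧ l * (J ∩ M).card ≤ J.card := by
  have hL : (5 : ℝ) ≤ l := by exact_mod_cast hl5
  have hL0 : (0 : ℝ) < l := by linarith
  set a : ℝ := (l - 1) / (2 * l) with ha
  set b : ℝ := (l - 3) / (2 * l) with hb
  have hab : a - b = 1 / l := by rw [ha, hb]; field_simp; ring
  have ha3 : 3 * a - b = 1 := by rw [ha, hb]; field_simp; ring
  have hb0 : 0 ≤ b := by
    rw [hb]
    exact div_nonneg (by linarith) (by linarith)
  have ha0 : 0 < a := by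
    rw [ha]
    exact div_pos (by linarith) (by linarith)
  set x : E → ℝ := fun e => a - b * ind J e - 0 * ind J e with hxdef
  have hxJ : ∀ e ∈ J, x e = 1 / l := by
    intro e he
    show a - b * ind J e - 0 * ind J e = 1 / l
    unfold ind
    rw [if_pos he, ← hab]
    ring
  have hsum : ∀ S : Finset E, ∑ e ∈ S, x e = a * S.card - b * (J ∩ S).card := by
    intro S
    rw [hxdef, sum_w]
    ring
  have hx : Frac G x := by
    refine ⟨base_of_cubic hG, fun e _ => ?_, fun v hv => ?_, fun X hX ho => ?_⟩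
    · by_cases he : e ∈ J
      · rw [hxJ e he]; positivity
      · show 0 < a - b * ind J e - 0 * ind J e
        unfold ind
        rw [if_neg he]
        linarith
    · rw [hsum, hG.deg v hv, star_inter hJ hv]
      push_cast
      linarith
    · rw [hsum]
      rcases hcut X hX ho with h3 | hl'
      · rw [h3, hJ3 X (mem_cuts.2 ⟨hX, ho, h3⟩)]
        push_cast
        linarith
      · have h1 : ((J ∩ G.cut X).card : ℝ) ≤ (G.cut X).card := by
          exact_mod_cast Finset.card_le_card Finset.inter_subset_right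
        have h2 : (l : ℝ) ≤ (G.cut X).card := by exact_mod_cast hl'
        have h3 : b * ((J ∩ G.cut X).card : ℝ) ≤ b * (G.cut X).card :=
          mul_le_mul_of_nonneg_left h1 hb0
        have h4 : (1 : ℝ) ≤ 1 / l * (G.cut X).card := by
          rw [one_div, inv_mul_eq_div, le_div_iff₀ hL0]
          linarith
        have h5 : a * ((G.cut X).card : ℝ) - b * (G.cut X).card = 1 / l * (G.cut X).card := by
          rw [← hab]; ring
        linarith
  obtain ⟨M, hM, h1, h2⟩ := tight_pm hG hx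
    (cuts G 3 ∪ (cuts G l).filter fun X => G.cut X ⊆ J) (fun X hX => by
      rw [Finset.mem_union, Finset.mem_filter] at hX
      rcases hX with hX | ⟨hX, hXJ⟩
      · have hX' := mem_cuts.1 hX
        refine ⟨hX'.1, hX'.2.1, ?_⟩
        rw [hsum, hX'.2.2, hJ3 X hX]
        push_cast
        linarith
      · have hX' := mem_cuts.1 hX
        refine ⟨hX'.1, hX'.2.1, ?_⟩
        rw [hsum, Finset.inter_eq_right.2 hXJ, hX'.2.2]
        have h5 : a * (l : ℝ) - b * l = (a - b) * l := by ring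
        rw [h5, hab]
        field_simp) (ind J)
  refine ⟨M, hM, fun X hX => h1 X (Finset.mem_union_left _ hX), fun X hX hXJ =>
    h1 X (Finset.mem_union_right _ (Finset.mem_filter.2 ⟨hX, hXJ⟩)), ?_⟩
  rw [sum_ind] at h2
  have h3 : ∑ e ∈ G.D, ind J e * x e = J.card * (1 / l) := by
    have h4 : ∀ e ∈ G.D, ind J e * x e = if e ∈ J then 1 / (l : ℝ) else 0 := by
      intro e _
      by_cases he : e ∈ J
      · rw [if_pos he, hxJ e he]
        unfold ind
        rw [if_pos he, one_mul]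
      · rw [if_neg he]
        unfold ind
        rw [if_neg he, zero_mul]
    rw [Finset.sum_congr rfl h4, Finset.sum_ite_mem, Finset.inter_eq_right.2 hJ.1, Finset.sum_const,
      nsmul_eq_mul]
  rw [h3] at h2
  have h5 : (l : ℝ) * (J ∩ M).card ≤ J.card := by
    have h6 := mul_le_mul_of_nonneg_left h2 hL0.le
    have h7 : (l : ℝ) * (J.card * (1 / l)) = J.card := by field_simp
    linarith
  exact_mod_cast h5

/-- step 3 -/
theorem exists_N (hG : G.Cubic) {l : ℕ} (hl : Odd l) (hl5 : 5 ≤ l)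
    (hcut : ∀ X ⊆ G.A, Odd X.card → (G.cut X).card = 3 ∨ l ≤ (G.cut X).card) {J M : Finset E}
    (hJ : G.PM J) (hM : G.PM M) (hJ3 : ∀ X ∈ cuts G 3, (J ∩ G.cut X).card = 1)
    (hM3 : ∀ X ∈ cuts G 3, (M ∩ G.cut X).card = 1)
    (hJM : ∀ X ∈ cuts G l, ¬ G.cut X ⊆ J ∩ M) :
    ∃ N, G.PM N ∧ (∀ X ∈ cuts G 3, (N ∩ G.cut X).card = 1) ∧
      (l + 2) * (J ∩ M ∩ N).card ≤ (J ∩ M).card := by
  have hL : (5 : ℝ) ≤ l := by exact_mod_cast hl5
  have hL0 : (0 : ℝ) < l := by linarith
  set a : ℝ := (l + 1) / (2 * (l + 2)) with ha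
  set b : ℝ := (l - 1) / (4 * (l + 2)) with hb
  have hab : a - 2 * b = 1 / (l + 2) := by rw [ha, hb]; field_simp; ring
  have ha3 : 3 * a - 2 * b = 1 := by rw [ha, hb]; field_simp; ring
  have hb0 : 0 ≤ b := by
    rw [hb]
    exact div_nonneg (by linarith) (by linarith)
  have hab0 : 0 < a - 2 * b := by rw [hab]; positivity
  have hal : (1 : ℝ) ≤ a * l - b * (2 * l - 2) := by
    rw [ha, hb]
    have h1 : ((l : ℝ) + 1) / (2 * (l + 2)) * l - (l - 1) / (4 * (l + 2)) * (2 * l - 2) =
        (6 * l - 2) / (4 * (l + 2)) := by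
      field_simp
      ring
    rw [h1, le_div_iff₀ (by positivity)]
    linarith
  set x : E → ℝ := fun e => a - b * ind J e - b * ind M e with hxdef
  have hxJM : ∀ e ∈ J ∩ M, x e = 1 / (l + 2) := by
    intro e he
    rw [Finset.mem_inter] at he
    show a - b * ind J e - b * ind M e = 1 / (l + 2)
    unfold ind
    rw [if_pos he.1, if_pos he.2, ← hab]
    ring
  have hsum : ∀ S : Finset E, ∑ e ∈ S, x e = a * S.card - b * (J ∩ S).card - b * (M ∩ S).card := by
    intro S
    rw [hxdef, sum_w]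
  have hx : Frac G x := by
    refine ⟨base_of_cubic hG, fun e _ => ?_, fun v hv => ?_, fun X hX ho => ?_⟩
    · show 0 < a - b * ind J e - b * ind M e
      have h1 : ∀ K : Finset E, ind K e ≤ 1 := by
        intro K
        unfold ind
        split_ifs <;> norm_num
      have h2 := mul_le_mul_of_nonneg_left (h1 J) hb0
      have h3 := mul_le_mul_of_nonneg_left (h1 M) hb0
      linarith
    · rw [hsum, hG.deg v hv, star_inter hJ hv, star_inter hM hv]
      push_cast
      linarith
    · rw [hsum]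
      rcases hcut X hX ho with h3 | hl'
      · rw [h3, hJ3 X (mem_cuts.2 ⟨hX, ho, h3⟩), hM3 X (mem_cuts.2 ⟨hX, ho, h3⟩)]
        push_cast
        linarith
      · have j1 : (J ∩ G.cut X).card ≤ (G.cut X).card := Finset.card_le_card Finset.inter_subset_right
        have m1 : (M ∩ G.cut X).card ≤ (G.cut X).card := Finset.card_le_card Finset.inter_subset_right
        have jp := pm_parity hG hJ hX
        have mp := pm_parity hG hM hX
        have cp := cut_parity hG hX
        rw [Nat.odd_iff] at ho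
        rcases Nat.eq_or_lt_of_le hl' with heq | hlt
        · -- size `l`
          have hno := hJM X (mem_cuts.2 ⟨hX, Nat.odd_iff.2 ho, heq.symm⟩)
          have hsmall : (J ∩ G.cut X).card + (M ∩ G.cut X).card ≤ 2 * l - 2 := by
            by_contra hcon
            have jl : (J ∩ G.cut X).card = (G.cut X).card := by omega
            have ml : (M ∩ G.cut X).card = (G.cut X).card := by omega
            apply hno
            have j2 : J ∩ G.cut X = G.cut X :=
              Finset.eq_of_subset_of_card_le Finset.inter_subset_right jl.ge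
            have m2 : M ∩ G.cut X = G.cut X :=
              Finset.eq_of_subset_of_card_le Finset.inter_subset_right ml.ge
            exact Finset.subset_inter (Finset.inter_eq_right.1 j2) (Finset.inter_eq_right.1 m2)
          have hs2 : ((J ∩ G.cut X).card : ℝ) + (M ∩ G.cut X).card ≤ 2 * l - 2 := by
            have h4 : (J ∩ G.cut X).card + (M ∩ G.cut X).card + 2 ≤ 2 * l := by omega
            have h5 : ((J ∩ G.cut X).card : ℝ) + (M ∩ G.cut X).card + 2 ≤ 2 * l := by exact_mod_cast h4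
            linarith
          rw [← heq]
          have h6 := mul_le_mul_of_nonneg_left hs2 hb0
          linarith
        · -- size at least `l + 2`
          rw [Nat.odd_iff] at hl
          have h2 : l + 2 ≤ (G.cut X).card := by omega
          have h2' : (l : ℝ) + 2 ≤ (G.cut X).card := by exact_mod_cast h2
          have j1' : ((J ∩ G.cut X).card : ℝ) ≤ (G.cut X).card := by exact_mod_cast j1
          have m1' : ((M ∩ G.cut X).card : ℝ) ≤ (G.cut X).card := by exact_mod_cast m1
          have j3 := mul_le_mul_of_nonneg_left j1' hb0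
          have m3 := mul_le_mul_of_nonneg_left m1' hb0
          have h4 : (1 : ℝ) ≤ (a - 2 * b) * (G.cut X).card := by
            rw [hab, one_div, inv_mul_eq_div, le_div_iff₀ (by positivity)]
            linarith
          linarith
  obtain ⟨N, hN, h1, h2⟩ := tight_pm hG hx (cuts G 3) (fun X hX => by
      have hX' := mem_cuts.1 hX
      refine ⟨hX'.1, hX'.2.1, ?_⟩
      rw [hsum, hX'.2.2, hJ3 X hX, hM3 X hX]
      push_cast
      linarith) (ind (J ∩ M))
  refine ⟨N, hN, h1, ?_⟩
  rw [sum_ind] at h2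
  have h3 : ∑ e ∈ G.D, ind (J ∩ M) e * x e = (J ∩ M).card * (1 / (l + 2)) := by
    have h4 : ∀ e ∈ G.D, ind (J ∩ M) e * x e = if e ∈ J ∩ M then 1 / ((l : ℝ) + 2) else 0 := by
      intro e _
      by_cases he : e ∈ J ∩ M
      · rw [if_pos he, hxJM e he]
        unfold ind
        rw [if_pos he, one_mul]
      · rw [if_neg he]
        unfold ind
        rw [if_neg he, zero_mul]
    rw [Finset.sum_congr rfl h4, Finset.sum_ite_mem,
      Finset.inter_eq_right.2 (Finset.inter_subset_left.trans hJ.1), Finset.sum_const, nsmul_eq_mul]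
  rw [h3] at h2
  have h5 : ((l : ℝ) + 2) * (J ∩ M ∩ N).card ≤ (J ∩ M).card := by
    have h6 := mul_le_mul_of_nonneg_left h2 (by positivity : (0 : ℝ) ≤ l + 2)
    have h7 : ((l : ℝ) + 2) * ((J ∩ M).card * (1 / (l + 2))) = (J ∩ M).card := by field_simp
    linarith
  exact_mod_cast h5

end Pool.Agent.Helper97.FR
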