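import Pool.Agent.Helper97.FR.Glue

/-!
# Edmonds' perfect matching polytope theorem
-/

set_option autoImplicit false
set_option linter.unusedSectionVars false
open Finset

namespace Pool.Agent.Helper97.FR

open Pool.Agent.Helper93.F5

variable {V E : Type} [DecidableEq V] [DecidableEq E]

/-- Reduction over a tight cut. -/
theorem concl_tight {G : Gr V E} {S : Finset V} {w w' : V} {x : E → ℝ} (hG : Base G)
    (hpos : ∀ e ∈ G.D, 0 < x e) (hw : w ∉ S) (hw' : w' ∈ S)
    (h1 : Concl (con G S w) x) (h2 : Concl (con G (G.A \ S) w') x) : Concl G x := by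
  classical
  intro c
  have hw'' : w' ∉ G.A \ S := fun h => (Finset.mem_sdiff.1 h).2 hw'
  -- every cut edge lies in a perfect matching of the first contraction
  have hex : ∀ e ∈ G.cut S, ∃ M, (con G S w).PM M ∧ e ∈ M := by
    intro e he
    obtain ⟨M, hM, hc⟩ := h1 (fun f => if f = e then -1 else 0)
    refine ⟨M, hM, ?_⟩
    by_contra hne
    have e1 : ∑ f ∈ M, (if f = e then (-1 : ℝ) else 0) = 0 := by
      refine Finset.sum_eq_zero fun f hf => ?_
      rw [if_neg]
      rintro rfl
      exact hne hf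
    have e2 : ∑ f ∈ (con G S w).D, (if f = e then (-1 : ℝ) else 0) * x f = -x e := by
      rw [Finset.sum_eq_single e]
      · rw [if_pos rfl]; ring
      · intro f _ hf
        rw [if_neg hf, zero_mul]
      · intro h
        exact absurd (cut_sub_con he) h
    rw [e1, e2] at hc
    have := hpos e (cut_sub _ _ he)
    linarith
  -- the minimal cost of the inside part
  have hmin : ∀ e : E, ∃ a : ℝ, e ∈ G.cut S →
      (∃ M, (con G S w).PM M ∧ e ∈ M ∧ ∑ f ∈ M \ G.cut S, c f = a) ∧
      ∀ M, (con G S w).PM M → e ∈ M → a ≤ ∑ f ∈ M \ G.cut S, c f := by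
    intro e
    by_cases he : e ∈ G.cut S
    · obtain ⟨M0, hM0, heM0⟩ := hex e he
      obtain ⟨M, hM, hMmin⟩ := Finset.exists_min_image
        ((con G S w).D.powerset.filter (fun M => (con G S w).PM M ∧ e ∈ M))
        (fun M => ∑ f ∈ M \ G.cut S, c f)
        ⟨M0, Finset.mem_filter.2 ⟨Finset.mem_powerset.2 hM0.1, hM0, heM0⟩⟩
      rw [Finset.mem_filter] at hM
      refine ⟨∑ f ∈ M \ G.cut S, c f, fun _ => ⟨⟨M, hM.2.1, hM.2.2, rfl⟩, ?_⟩⟩
      intro M' hM' heM'
      exact hMmin M' (Finset.mem_filter.2 ⟨Finset.mem_powerset.2 hM'.1, hM', heM'⟩)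
    · exact ⟨0, fun h => absurd h he⟩
  choose a ha using hmin
  have key1 : ∑ e ∈ G.cut S, a e * x e ≤ ∑ e ∈ (con G S w).D \ G.cut S, c e * x e := by
    obtain ⟨M, hM, hc⟩ := h1 (fun f => if f ∈ G.cut S then -a f else c f)
    obtain ⟨e, he⟩ := Finset.card_eq_one.1 (pm_cut_one hG hw hM)
    have heM : e ∈ M ∩ G.cut S := by rw [he]; exact Finset.mem_singleton_self e
    rw [Finset.mem_inter] at heM
    have e1 : ∑ f ∈ M, (if f ∈ G.cut S then -a f else c f) = ∑ f ∈ M \ G.cut S, c f - a e := by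
      rw [← Finset.sum_inter_add_sum_sdiff M (G.cut S)]
      rw [he, Finset.sum_singleton, if_pos heM.2]
      have : ∑ f ∈ M \ G.cut S, (if f ∈ G.cut S then -a f else c f) = ∑ f ∈ M \ G.cut S, c f := by
        refine Finset.sum_congr rfl fun f hf => ?_
        rw [if_neg (Finset.mem_sdiff.1 hf).2]
      rw [this]
      ring
    have e2 : ∑ f ∈ (con G S w).D, (if f ∈ G.cut S then -a f else c f) * x f =
        ∑ f ∈ (con G S w).D \ G.cut S, c f * x f - ∑ f ∈ G.cut S, a f * x f := by
      rw [← Finset.sum_sdiff (cut_sub_con (G := G) (S := S) (w := w))]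
      have e3 : ∑ f ∈ (con G S w).D \ G.cut S, (if f ∈ G.cut S then -a f else c f) * x f =
          ∑ f ∈ (con G S w).D \ G.cut S, c f * x f := by
        refine Finset.sum_congr rfl fun f hf => ?_
        rw [if_neg (Finset.mem_sdiff.1 hf).2]
      have e4 : ∑ f ∈ G.cut S, (if f ∈ G.cut S then -a f else c f) * x f =
          - ∑ f ∈ G.cut S, a f * x f := by
        rw [← Finset.sum_neg_distrib]
        refine Finset.sum_congr rfl fun f hf => ?_
        rw [if_pos hf]
        ring
      rw [e3, e4]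
      ring
    rw [e1, e2] at hc
    have := (ha e heM.2).2 M hM heM.1
    linarith
  obtain ⟨N, hN, hcN⟩ := h2 (fun f => if f ∈ G.cut S then a f + c f else c f)
  have hcc : G.cut (G.A \ S) = G.cut S := hG.cut_compl S
  obtain ⟨e, he⟩ := Finset.card_eq_one.1 (pm_cut_one hG hw'' hN)
  rw [hcc] at he
  have heN : e ∈ N ∩ G.cut S := by rw [he]; exact Finset.mem_singleton_self e
  rw [Finset.mem_inter] at heN
  obtain ⟨⟨M, hM, heM, hMa⟩, -⟩ := ha e heN.2
  refine ⟨(M \ G.cut S) ∪ N, glue_pm hG hw hw' hM hN heM heN.1 heN.2, ?_⟩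
  rw [Finset.sum_union (glue_disj hG hM.1 hN.1), hMa]
  have e1 : ∑ f ∈ N, (if f ∈ G.cut S then a f + c f else c f) = ∑ f ∈ N, c f + a e := by
    have h3 : ∀ f ∈ N, (if f ∈ G.cut S then a f + c f else c f) = c f + if f = e then a e else 0 := by
      intro f hf
      by_cases hfc : f ∈ G.cut S
      · have h4 : f ∈ N ∩ G.cut S := Finset.mem_inter.2 ⟨hf, hfc⟩
        rw [he, Finset.mem_singleton] at h4
        rw [if_pos hfc, if_pos h4, h4]
        ring
      · rw [if_neg hfc, if_neg, add_zero]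
        rintro rfl
        exact hfc heN.2
    rw [Finset.sum_congr rfl h3, Finset.sum_add_distrib, Finset.sum_ite_eq', if_pos heN.1]
  have e2 : ∑ f ∈ (con G (G.A \ S) w').D, (if f ∈ G.cut S then a f + c f else c f) * x f =
      ∑ f ∈ (con G (G.A \ S) w').D, c f * x f + ∑ f ∈ G.cut S, a f * x f := by
    have h3 : ∀ f ∈ (con G (G.A \ S) w').D, (if f ∈ G.cut S then a f + c f else c f) * x f =
        c f * x f + if f ∈ G.cut S then a f * x f else 0 := by
      intro f _
      split_ifs <;> ring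
    have hsub : G.cut S ⊆ (con G (G.A \ S) w').D := by
      rw [← hcc]
      exact cut_sub_con
    rw [Finset.sum_congr rfl h3, Finset.sum_add_distrib, Finset.sum_ite_mem,
      Finset.inter_eq_right.2 hsub]
  rw [e1, e2] at hcN
  rw [sum_split hG (fun e => c e * x e) (S := S) (w := w) (w' := w')]
  linarith

end Pool.Agent.Helper97.FR
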