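import Mathlib

/-!
# Tutte's theorem for a relation on a finite set
-/


set_option autoImplicit false
open Finset

namespace Pool.Agent.Helper97.FR

variable {V : Type} [DecidableEq V]

/-- Tutte's theorem for a symmetric relation on a finite set. -/
theorem tutte_fin (A : Finset V) (r : V → V → Prop) (hr : ∀ p q, r p q → r q p)
    (hirr : ∀ p, ¬ r p p) :
    (∃ f : V → V, ∀ v ∈ A, f v ∈ A ∧ r v (f v) ∧ f (f v) = v) ∨
    (∃ U ⊆ A, ∃ 𝒞 : Finset (Finset V), U.card < 𝒞.card ∧
      (∀ C ∈ 𝒞, C ⊆ A \ U ∧ Odd C.card ∧ ∀ p ∈ C, ∀ q ∈ A \ U, r p q → q ∈ C) ∧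
      (∀ C ∈ 𝒞, ∀ C' ∈ 𝒞, C ≠ C' → Disjoint C C')) := by
  classical
  let G : SimpleGraph {v // v ∈ A} :=
    { Adj := fun p q => r p.1 q.1
      symm := ⟨fun p q h => hr _ _ h⟩
      loopless := ⟨fun p h => hirr _ h⟩ }
  by_cases hM : ∃ M : G.Subgraph, M.IsPerfectMatching
  · left
    obtain ⟨M, hM⟩ := hM
    rw [SimpleGraph.Subgraph.isPerfectMatching_iff] at hM
    choose f hf1 hf2 using hM
    refine ⟨fun v => if h : v ∈ A then (f ⟨v, h⟩).1 else v, ?_⟩
    intro v hv
    simp only [hv, dif_pos]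
    refine ⟨(f ⟨v, hv⟩).2, (hf1 ⟨v, hv⟩).adj_sub, ?_⟩
    have h1 : (f ⟨v, hv⟩).1 ∈ A := (f ⟨v, hv⟩).2
    rw [dif_pos h1]
    have h2 := hf2 (f ⟨v, hv⟩) ⟨v, hv⟩ (hf1 ⟨v, hv⟩).symm
    have h3 : (⟨(f ⟨v, hv⟩).1, h1⟩ : {v // v ∈ A}) = f ⟨v, hv⟩ := rfl
    rw [h3, ← h2]
  · right
    rw [SimpleGraph.tutte] at hM
    push Not at hM
    obtain ⟨u, hu⟩ := hM
    unfold SimpleGraph.IsTutteViolator at hu
    set H := ((⊤ : G.Subgraph).deleteVerts u).coe with hH
    have hadj : ∀ x y : ((⊤ : G.Subgraph).deleteVerts u).verts, r x.1.1 y.1.1 → H.Adj x y := by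
      intro x y hxy
      rw [hH, SimpleGraph.Subgraph.coe_adj, SimpleGraph.Subgraph.deleteVerts_adj]
      exact ⟨Set.mem_univ _, x.2.2, Set.mem_univ _, y.2.2, hxy⟩
    let cs : H.ConnectedComponent → Finset V := fun C => (Set.toFinite C.supp).toFinset.image (fun x => x.1.1)
    have hcs : ∀ C (x : ((⊤ : G.Subgraph).deleteVerts u).verts), x.1.1 ∈ cs C ↔ x ∈ C.supp := by
      intro C x
      simp only [cs, Finset.mem_image, Set.Finite.mem_toFinset]
      constructor
      · rintro ⟨y, hy, hyx⟩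
        have : y = x := Subtype.ext (Subtype.ext hyx)
        rwa [← this]
      · intro h
        exact ⟨x, h, rfl⟩
    have hcs' : ∀ C v, v ∈ cs C → ∃ x : ((⊤ : G.Subgraph).deleteVerts u).verts, x.1.1 = v ∧ x ∈ C.supp := by
      intro C v hv
      simp only [cs, Finset.mem_image, Set.Finite.mem_toFinset] at hv
      obtain ⟨y, hy, hyx⟩ := hv
      exact ⟨y, hyx, hy⟩
    have hdisj : ∀ C C', C ≠ C' → Disjoint (cs C) (cs C') := by
      intro C C' hne
      rw [Finset.disjoint_left]
      intro v hv hv'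
      obtain ⟨x, rfl, hx⟩ := hcs' C v hv
      have hx' := (hcs C' x).1 hv'
      exact hne ((SimpleGraph.ConnectedComponent.mem_supp_iff _ _).1 hx ▸
        (SimpleGraph.ConnectedComponent.mem_supp_iff _ _).1 hx')
    have hcard : ∀ C, (cs C).card = C.supp.ncard := by
      intro C
      rw [Finset.card_image_of_injective, Set.ncard_eq_toFinset_card _ (Set.toFinite C.supp)]
      intro x y hxy
      exact Subtype.ext (Subtype.ext hxy)
    have hinj : Set.InjOn cs H.oddComponents := by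
      intro C hC C' _ hcc
      by_contra hne
      have h1 := hdisj C C' hne
      rw [← hcc, disjoint_self, Finset.bot_eq_empty] at h1
      have h2 := hcard C
      rw [h1, Finset.card_empty] at h2
      have h3 : Odd C.supp.ncard := hC
      rw [← h2] at h3
      exact absurd h3 (by decide)
    refine ⟨A.filter (fun v => ∃ h : v ∈ A, (⟨v, h⟩ : {v // v ∈ A}) ∈ u), Finset.filter_subset _ _,
      (Set.toFinite H.oddComponents).toFinset.image cs, ?_, ?_, ?_⟩
    · rw [Finset.card_image_of_injOn (by simpa using hinj),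
        ← Set.ncard_eq_toFinset_card _ (Set.toFinite H.oddComponents)]
      refine lt_of_le_of_lt ?_ hu
      have : (A.filter (fun v => ∃ h : v ∈ A, (⟨v, h⟩ : {v // v ∈ A}) ∈ u)).card = u.ncard := by
        rw [Set.ncard_eq_toFinset_card _ (Set.toFinite u)]
        rw [← Finset.card_image_of_injective (Set.toFinite u).toFinset (Subtype.val_injective)]
        congr 1
        ext v
        simp only [Finset.mem_filter, Finset.mem_image, Set.Finite.mem_toFinset]
        constructor
        · rintro ⟨_, h, hvu⟩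
          exact ⟨⟨v, h⟩, hvu, rfl⟩
        · rintro ⟨x, hx, rfl⟩
          exact ⟨x.2, x.2, hx⟩
      exact this.le
    · intro C' hC'
      rw [Finset.mem_image] at hC'
      obtain ⟨C, hC, rfl⟩ := hC'
      rw [Set.Finite.mem_toFinset] at hC
      refine ⟨?_, ?_, ?_⟩
      · intro v hv
        obtain ⟨x, rfl, hx⟩ := hcs' C v hv
        rw [Finset.mem_sdiff, Finset.mem_filter]
        refine ⟨x.1.2, ?_⟩
        rintro ⟨_, h, hxu⟩
        exact x.2.2 hxu
      · rw [hcard]
        exact hC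
      · intro p hp q hq hpq
        obtain ⟨x, rfl, hx⟩ := hcs' C p hp
        rw [Finset.mem_sdiff, Finset.mem_filter] at hq
        have hq2 : (⟨q, hq.1⟩ : {v // v ∈ A}) ∉ u := fun h => hq.2 ⟨hq.1, hq.1, h⟩
        let y : ((⊤ : G.Subgraph).deleteVerts u).verts := ⟨⟨q, hq.1⟩, Set.mem_univ _, hq2⟩
        have h1 : H.Adj x y := hadj x y hpq
        have h2 : y ∈ C.supp := by
          rw [SimpleGraph.ConnectedComponent.mem_supp_iff] at hx ⊢
          rw [← hx]
          exact (SimpleGraph.ConnectedComponent.sound h1.reachable.symm)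
        exact (hcs C y).2 h2
    · intro C1 h1 C2 h2 hne
      rw [Finset.mem_image] at h1 h2
      obtain ⟨C, _, rfl⟩ := h1
      obtain ⟨C', _, rfl⟩ := h2
      exact hdisj C C' (fun e => hne (by rw [e]))

end Pool.Agent.Helper97.FR
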